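import Pool.Agent.helper53.ORT.Spec

set_option autoImplicit false

namespace Pool.Agent.ORT

open Module Pool.Agent.GS

noncomputable section

theorem SLR_Dv {F : Type} [Field F] [Finite F] (h3 : ringChar F ≠ 3) : Dv (Nat.card F) 3 1 := by
  haveI : Fintype F := Fintype.ofFinite F
  haveI : CharP F (ringChar F) := ringChar.charP F
  obtain ⟨n, hp, hn⟩ := FiniteField.card F (ringChar F)
  have hq : Nat.card F = ringChar F ^ (n : ℕ) := by rw [Nat.card_eq_fintype_card, hn]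
  have h : ¬ 3 ∣ Nat.card F := by
    rw [hq]
    intro hd
    have := Nat.prime_three.dvd_of_dvd_pow hd
    exact h3 ((Nat.prime_dvd_prime_iff_eq Nat.prime_three hp).1 this).symm
  refine ⟨le_refl _, ?_⟩
  have h1 : 1 ≤ Nat.card F := Nat.card_pos
  generalize Nat.card F = q at h h1
  have h2 : q % 3 = 1 ∨ q % 3 = 2 := by omega
  have h4 : q ^ (2 * 1) % 3 = 1 := by
    rcases h2 with h2 | h2 <;> simp [Nat.pow_mod, h2]
  omega

theorem SLR (dso : DSO_stmt) (smt : SMT_stmt) (nrx : NRX_stmt) (trc : TRC_stmt) (dm : DM_stmt) :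
    SLR_stmt := by
  intro F V _ _ _ _ _ B hF hB h5 y ψ ν hy hψ l κ hlp hκ hyl
  obtain ⟨hDup, hl⟩ := dso B hF hB h5 y ψ ν hy hψ l κ hlp hκ hyl
  have hN := nrx ψ l hlp hψ hl
  obtain ⟨x₁, hx₁⟩ := hψ
  have hω : ψ x₁ - x₁ ≠ 0 := sub_ne_zero.2 hx₁
  have h2 : (2 : F) ≠ 0 := Ring.two_ne_zero hF
  have key : ∀ T X : F, X * ψ X * (ψ x₁ - x₁) ^ 2 = T - 2 → Cm B y T := by
    intro T X hX
    have h := smt B hF hB (by omega) y ψ ν hy hDup x₁ X hx₁
    rw [hX] at h
    have e : 2 + (T - 2) = T := by ring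
    rwa [e] at h
  by_cases hl2 : l = 2
  · have hψψ : ψ (ψ x₁) = x₁ := by
      have := hl x₁
      rw [hl2] at this
      exact this
    have hfix : ψ ((ψ x₁ - x₁) ^ 2) = (ψ x₁ - x₁) ^ 2 := by
      rw [map_pow, map_sub, hψψ]
      ring
    have k2 : ∀ T : F, T - 2 ≠ 0 → ψ T = T → Cm B y T := by
      intro T hT hT'
      obtain ⟨X, hX⟩ := hN.1 hl2 ((T - 2) / (ψ x₁ - x₁) ^ 2)
        (div_ne_zero hT (pow_ne_zero 2 hω)) (by
          rw [map_div₀, hfix, map_sub, hT', map_ofNat])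
      refine key T X ?_
      rw [hX, div_mul_cancel₀ _ (pow_ne_zero 2 hω)]
    refine ⟨⟨-2, (dm hF).1, k2 _ ?_ ?_⟩, fun h3 => ⟨-1, (dm hF).2 h3, k2 _ ?_ ?_⟩⟩
    · have : (-2 - 2 : F) = -(2 * 2) := by ring
      rw [this]
      exact neg_ne_zero.2 (mul_ne_zero h2 h2)
    · rw [map_neg, map_ofNat]
    · intro h0
      have h3' : (3 : F) = 0 := by
        have : (-1 - 2 : F) = -3 := by ring
        rw [this, neg_eq_zero] at h0
        exact h0
      have h4 : ((3 : ℕ) : F) = 0 := by exact_mod_cast h3'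
      haveI : CharP F (ringChar F) := ringChar.charP F
      have h5 : ringChar F ∣ 3 := ringChar.dvd h4
      rcases (Nat.dvd_prime Nat.prime_three).1 h5 with h6 | h6
      · exact CharP.ringChar_ne_one h6
      · exact h3 h6
    · rw [map_neg, map_one]
  · have k3 : ∀ T : F, T ≠ 2 → IsSquare ((T - 2) * 1) → Cm B y T := by
      intro T hT hs
      obtain ⟨s, hs⟩ := hs
      rw [mul_one] at hs
      have hs0 : s ≠ 0 := by
        rintro rfl
        rw [mul_zero, sub_eq_zero] at hs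
        exact hT hs
      obtain ⟨X, hX⟩ := hN.2 hl2 (s / (ψ x₁ - x₁)) (div_ne_zero hs0 hω)
      refine key T X ?_
      rw [hX, hs]
      field_simp
    refine ⟨?_, fun h3 => ?_⟩
    · obtain ⟨T, hT, hs, hD⟩ := trc hF 2 (Or.inl rfl) 1 one_ne_zero
      exact ⟨T, hD, k3 T hT hs⟩
    · obtain ⟨T, hT, hs, hD⟩ := trc hF 3
        (Or.inr ⟨Nat.prime_three, by norm_num, SLR_Dv h3⟩) 1 one_ne_zero
      exact ⟨T, hD, k3 T hT hs⟩

end

end Pool.Agent.ORT
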